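import Pool.Agent.H458.AU.Def

set_option autoImplicit false
set_option linter.all false

open Polynomial NumberField IsDedekindDomain
open scoped Classical

namespace Pool.Agent.H975.AU458

open Pool.Agent.H458.AU
open Pool.Agent.N783.PF (Bd Cg sp rd Ht)
open Pool.Agent.N352.PF (nv dg Bx Bz S_BX)
open Pool.Agent.N352.PJ (dis D2 dd pol)
open Pool.Agent.N951.PF (crt bz_coeff eq_pol pol_inj)

/-- **FIB** -/
theorem fib (h : Pool.Agent.N352.PF.S_BX) : Pool.Agent.H458.AU.S_FIB := by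
  intro F _ _
  obtain ⟨C, hC, hBX⟩ := h F 1
  refine ⟨C, hC, fun S a₀ b₀ B hS hB => ?_⟩
  obtain ⟨Q, hQ⟩ : ∃ Q : ℕ, Q = ∏ q ∈ S, q := ⟨_, rfl⟩
  rw [← hQ] at hB ⊢
  have hQ0 : 0 < Q := by
    rw [hQ]
    exact Finset.prod_pos fun q hq => (hS q hq).pos
  have hp : ∀ q ∈ S, q.Prime ∧ ¬ q ∣ 1 := fun q hq =>
    ⟨hS q hq, fun hd => (hS q hq).one_lt.ne' (Nat.dvd_one.1 hd)⟩
  obtain ⟨xa, -, hxa⟩ := crt 1 S hp (0 : 𝓞 F) a₀
  obtain ⟨xb, -, hxb⟩ := crt 1 S hp (0 : 𝓞 F) b₀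
  set A : Fin (2 * 1) → 𝓞 F := fun j => if (j : ℕ) = 0 then xb else xa with hA
  obtain ⟨hfin, -, hcard⟩ := hBX B Q A hQ0 hB
  have hsub : {f : (𝓞 F)[X] | Ht 1 B f ∧ ∀ q ∈ S,
      mk2 q (f.coeff 1) (f.coeff 0) = mk2 q (a₀ q) (b₀ q)} ⊆ pol '' (Bx 1 B Q A) := by
    rintro f ⟨hf, hres⟩
    refine ⟨fun j => f.coeff j, ⟨bz_coeff hf, fun j => ?_⟩, (eq_pol hf).symm⟩
    rw [hQ, Nat.cast_prod]
    apply Finset.prod_dvd_of_coprime
    · intro p hp' q hq' hpq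
      have h1 : Nat.Coprime p q := (Nat.coprime_primes (hS p hp') (hS q hq')).2 hpq
      exact h1.cast
    · intro q hq
      have h1 := mk2_eq.1 (hres q hq)
      rw [sp, Ideal.mem_span_singleton, Ideal.mem_span_singleton] at h1
      have hj := j.2
      by_cases h0 : (j : ℕ) = 0
      · simp only [hA, h0, if_true]
        have h2 : f.coeff 0 - xb = (f.coeff 0 - b₀ q) - (xb - b₀ q) := by ring
        rw [h2]
        exact dvd_sub h1.2 (hxb q hq)
      · have h3 : (j : ℕ) = 1 := by omega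
        simp only [hA, h3]
        rw [if_neg one_ne_zero]
        have h2 : f.coeff 1 - xa = (f.coeff 1 - a₀ q) - (xa - a₀ q) := by ring
        rw [h2]
        exact dvd_sub h1.1 (hxa q hq)
  have hle : {f : (𝓞 F)[X] | Ht 1 B f ∧ ∀ q ∈ S,
      mk2 q (f.coeff 1) (f.coeff 0) = mk2 q (a₀ q) (b₀ q)}.ncard ≤ (Bx 1 B Q A).ncard := by
    rw [← Set.ncard_image_of_injective _ pol_inj]
    exact Set.ncard_le_ncard hsub (hfin.image _)
  have hd : dg F * dd 1 = 5 * Module.finrank ℚ F := by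
    rw [mul_comm]
    rfl
  have hw : 2 * 1 * dg F = 2 * Module.finrank ℚ F := by rw [mul_one]
  rw [hd, hw] at hcard
  exact (Nat.mul_le_mul_right _ hle).trans hcard

end Pool.Agent.H975.AU458
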